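import Mathlib
import Pool.Agent.Q267.MaxProd

/-!
# Maximal product of the solutions of `σ_{n-2} = σ_n`

For every `n ≥ 2`, every tuple of positive integers `x_1 ≤ ... ≤ x_n` with
`σ_{n-2}(x) = σ_n(x)` satisfies `x_1 ⋯ x_n ≤ v_1 ⋯ v_{n-1} (v_n - 1)`.

Proof idea: write `y_i = 1/x_i`, `P_k = x_1 ⋯ x_k`, `V_k = v_1 ⋯ v_k` and
`f_k = 1 - e_2(y_1, ..., y_k)`, so that `P_k f_k` is an integer.  A convexity/majorization
argument in the variables `log y_i` shows by induction that `f_k > 0` forces `f_k ≥ 1/V_k`,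
which in turn forces `y_1 + ... + y_k ≤ 1/v_1 + ... + 1/v_k`; comparing the last block with the
extremal sequence then gives the bound on the full product.
-/

open Finset

/-- Here `w n` is the sequence `v_n` of the problem, given by its recursion. -/
theorem Pool.Agent.Results.MP_15ce38_nt.MaximalProduct.result
    (w : ℕ → ℚ) (w1 : w 1 = 1) (w2 : w 2 = 2)
    (hw : ∀ n, 2 ≤ n → w (n+1) = 1 + (∑ i ∈ Icc 1 n, 1 / w i) /
      (1 - ∑ j ∈ Icc 1 n, ∑ i ∈ Ico 1 j, 1 / (w i * w j)))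
    (n : ℕ) (hn : 2 ≤ n) (x : Fin n → ℕ) (hpos : ∀ i, 1 ≤ x i) (hmono : Monotone x)
    (h : ∑ s ∈ powersetCard (n-2) (univ : Finset (Fin n)), ∏ i ∈ s, x i
      = ∑ s ∈ powersetCard n (univ : Finset (Fin n)), ∏ i ∈ s, x i) :
    ((∏ i, x i : ℕ) : ℚ) ≤ (∏ i ∈ Icc 1 (n-1), w i) * (w n - 1) :=
  Pool.Agent.Q267.MaxProd.final w w1 w2 hw n hn x hpos hmono h
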